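import Pool.Agent.Helper24.QD.GF

/-! Additional facts on the arithmetic data of rational function fields. -/

set_option autoImplicit false

namespace QG

open QD

section facts
variable {k : Type} [Field k]

/-- units contracting all places but one -/
def HV (A : Glob k) : Prop := ∀ v0 : A.I, ∃ w : kˣ, (w : k) ∈ A.B ∧ ((w⁻¹ : kˣ) : k) ∈ A.B ∧
  1 < A.av v0 (w : k) ∧ ∀ v, v ≠ v0 → A.av v (w : k) < 1

/-- unit scaling -/
def HUN (A : Glob k) : Prop := ∀ a ∈ A.B, a ≠ 0 → ∃ u : kˣ, (u : k) ∈ A.B ∧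
  ((u⁻¹ : kˣ) : k) ∈ A.B ∧ ∀ i, 1 ≤ A.av i (a * u)

/-- two by two reduction -/
def HBEZ (A : Glob k) : Prop := ∀ a b : k, ∃ p q r s : k, p ∈ A.B ∧ q ∈ A.B ∧ r ∈ A.B ∧
  s ∈ A.B ∧ p * s - q * r = 1 ∧ r * a + s * b = 0

end facts

open IsDedekindDomain HeightOneSpectrum Polynomial WithZero
open scoped NNReal

theorem avV_lt_one {k : Type} [Field k] (v : Valuation k ℤᵐ⁰) (x : k) :
    avV v x < 1 ↔ v x < 1 := by
  have h : ((WithZeroMulInt.toNNReal (ne_zero_of_lt gf_two) (v x) : ℝ≥0) : ℝ) < 1 ↔ v x < 1 := by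
    rw [← NNReal.coe_one, NNReal.coe_lt_coe]
    exact WithZeroMulInt.toNNReal_lt_one_iff gf_two
  exact h

theorem one_le_avV {k : Type} [Field k] (v : Valuation k ℤᵐ⁰) (x : k) :
    1 ≤ avV v x ↔ 1 ≤ v x := by
  rw [← not_lt, avV_lt_one, not_lt]

open Classical in
/-- two by two reduction over the polynomials -/
theorem bez_poly (F : Type) [Field F] (a b : RatFunc F) (hab : a ≠ 0 ∨ b ≠ 0) :
    ∃ p q r s : F[X], algebraMap F[X] (RatFunc F) p * algebraMap F[X] (RatFunc F) s -
      algebraMap F[X] (RatFunc F) q * algebraMap F[X] (RatFunc F) r = 1 ∧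
      algebraMap F[X] (RatFunc F) r * a + algebraMap F[X] (RatFunc F) s * b = 0 := by
  set i := algebraMap F[X] (RatFunc F) with hi
  have hinj : Function.Injective i := IsFractionRing.injective F[X] (RatFunc F)
  have hda : i a.denom ≠ 0 := (map_ne_zero_iff _ hinj).2 (RatFunc.denom_ne_zero a)
  have hdb : i b.denom ≠ 0 := (map_ne_zero_iff _ hinj).2 (RatFunc.denom_ne_zero b)
  have ha : a * i a.denom = i a.num := by
    have := RatFunc.num_div_denom a
    rw [← eq_div_iff hda]
    exact this.symm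
  have hb : b * i b.denom = i b.num := by
    have := RatFunc.num_div_denom b
    rw [← eq_div_iff hdb]
    exact this.symm
  set A : F[X] := a.num * b.denom with hA
  set B : F[X] := b.num * a.denom with hB
  have hA' : i A = a * (i a.denom * i b.denom) := by
    rw [hA, map_mul, ← ha]
    ring
  have hB' : i B = b * (i a.denom * i b.denom) := by
    rw [hB, map_mul, ← hb]
    ring
  have hD : i a.denom * i b.denom ≠ 0 := mul_ne_zero hda hdb
  have hg : EuclideanDomain.gcd A B ≠ 0 := by
    intro h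
    rw [EuclideanDomain.gcd_eq_zero_iff] at h
    rcases hab with h1 | h1
    · have h2 := hA'
      rw [h.1, map_zero] at h2
      exact mul_ne_zero h1 hD h2.symm
    · have h2 := hB'
      rw [h.2, map_zero] at h2
      exact mul_ne_zero h1 hD h2.symm
  obtain ⟨A1, hA1⟩ := EuclideanDomain.gcd_dvd_left A B
  obtain ⟨B1, hB1⟩ := EuclideanDomain.gcd_dvd_right A B
  have hbz := EuclideanDomain.gcd_eq_gcd_ab A B
  set g := EuclideanDomain.gcd A B with hgdef
  set x := EuclideanDomain.gcdA A B with hx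
  set y := EuclideanDomain.gcdB A B with hy
  have h1 : x * A1 + y * B1 = 1 := by
    have h2 : g * (x * A1 + y * B1) = g * 1 := by
      calc g * (x * A1 + y * B1) = (g * A1) * x + (g * B1) * y := by ring
        _ = A * x + B * y := by rw [← hA1, ← hB1]
        _ = g * 1 := by rw [← hbz, mul_one]
    exact mul_left_cancel₀ hg h2
  refine ⟨x, y, -B1, A1, ?_, ?_⟩
  · rw [map_neg, mul_neg, sub_neg_eq_add, ← map_mul, ← map_mul, ← map_add, h1, map_one]
  · have h3 : (i (-B1) * a + i A1 * b) * (i a.denom * i b.denom) = 0 := by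
      have h4 : -B1 * A + A1 * B = 0 := by
        conv_lhs => rw [hA1, hB1]
        ring
      calc (i (-B1) * a + i A1 * b) * (i a.denom * i b.denom)
          = i (-B1) * i A + i A1 * i B := by rw [hA', hB']; ring
        _ = i (-B1 * A + A1 * B) := by rw [map_add, map_mul i (-B1) A, map_mul i A1 B]
        _ = 0 := by rw [h4, map_zero]
    exact (mul_eq_zero.1 h3).resolve_right hD

open Classical in
/-- rational function fields over finite fields -/
theorem gfp (F : Type) [Field F] [Finite F] (S : Set (RatFunc F)) (hS : S.Finite) :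
    ∃ A : Glob (RatFunc F), S ⊆ A.B ∧ HV A ∧ HUN A ∧ HBEZ A := by
  have hX1 : (X + 1 : F[X]) ≠ 0 := by
    rw [← Polynomial.C_1]
    exact Polynomial.X_add_C_ne_zero 1
  set i := algebraMap F[X] (RatFunc F) with hi
  have hi0 : ∀ q : F[X], q ≠ 0 → i q ≠ 0 := fun q hq =>
    (map_ne_zero_iff _ (IsFractionRing.injective F[X] (RatFunc F))).2 hq
  have hfin : (Support F[X] ((i X)⁻¹) ∪ Support F[X] ((i (X + 1))⁻¹) ∪
      ⋃ f ∈ S, Support F[X] f : Set (HeightOneSpectrum F[X])).Finite :=
    ((Support.finite F[X] _).union (Support.finite F[X] _)).union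
      (hS.biUnion fun f _ => Support.finite F[X] f)
  set P : Finset (HeightOneSpectrum F[X]) := hfin.toFinset with hP
  have hPmem : ∀ v, v ∈ P ↔ (1 < v.valuation (RatFunc F) ((i X)⁻¹) ∨
      1 < v.valuation (RatFunc F) ((i (X + 1))⁻¹)) ∨ ∃ f ∈ S, 1 < v.valuation (RatFunc F) f := by
    intro v
    rw [hP, Set.Finite.mem_toFinset]
    simp only [Set.mem_union, Set.mem_iUnion, exists_prop]
    rfl
  set w := RatFunc.inftyValuation F with hw
  have hPne : P.Nonempty := by
    obtain ⟨v, hv⟩ : ∃ v : HeightOneSpectrum F[X], v.asIdeal = Ideal.span {X} :=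
      ⟨⟨Ideal.span {X}, (Ideal.span_singleton_prime Polynomial.X_ne_zero).2 Polynomial.prime_X,
        by rw [Ne, Ideal.span_singleton_eq_bot]; exact Polynomial.X_ne_zero⟩, rfl⟩
    refine ⟨v, (hPmem v).2 (Or.inl (Or.inl ?_))⟩
    rw [map_inv₀, one_lt_inv₀ (zero_lt_iff.2 ((Valuation.ne_zero_iff _).2
      (hi0 _ Polynomial.X_ne_zero))), valuation_lt_one_iff_mem, hv]
    exact Ideal.mem_span_singleton_self X
  -- generators
  have hgen : ∀ v : HeightOneSpectrum F[X], ∃ π : F[X], π ≠ 0 ∧
      v.valuation (RatFunc F) (i π) < 1 ∧ (∀ u, u ≠ v → u.valuation (RatFunc F) (i π) = 1) ∧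
      v.valuation (RatFunc F) (i π) = exp (-1 : ℤ) ∧ 0 < π.natDegree := by
    intro v
    have hpr : v.asIdeal.IsPrincipal := IsPrincipalIdealRing.principal v.asIdeal
    obtain ⟨π, hπ⟩ := hpr
    have hπ' : v.asIdeal = Ideal.span {π} := hπ
    have hπn : π ≠ 0 := by
      intro h
      apply v.ne_bot
      rw [hπ', h, Ideal.span_singleton_eq_bot]
    refine ⟨π, hπn, ?_, ?_, ?_, ?_⟩
    · rw [valuation_lt_one_iff_mem, hπ']
      exact Ideal.mem_span_singleton_self π
    · intro u hu
      rw [valuation_eq_one_iff_notMem]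
      intro h
      apply hu
      have h1 : v.asIdeal ≤ u.asIdeal := by
        rw [hπ', Ideal.span_singleton_le_iff_mem]
        exact h
      have h2 := v.isMaximal.eq_of_le u.isPrime.ne_top h1
      exact (HeightOneSpectrum.ext h2).symm
    · rw [valuation_of_algebraMap]
      exact v.intValuation_singleton hπn hπ'
    · rw [Nat.pos_iff_ne_zero]
      intro h
      apply v.isPrime.ne_top
      rw [hπ', Ideal.span_singleton_eq_top, Polynomial.isUnit_iff_degree_eq_zero,
        Polynomial.degree_eq_natDegree hπn, h]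
      rfl
  choose π hπ0 hπ1 hπ2 hπe hπd using hgen
  have hπi : ∀ v, i (π v) ≠ 0 := fun v => by simpa [hi] using hπ0 v
  have hpos : ∀ (v : HeightOneSpectrum F[X]) (x : RatFunc F), x ≠ 0 →
      0 < v.valuation (RatFunc F) x := fun v x hx =>
    zero_lt_iff.2 ((Valuation.ne_zero_iff _).2 hx)
  -- the ring
  let B : Subring (RatFunc F) :=
    { carrier := {f | ∀ v ∉ P, v.valuation (RatFunc F) f ≤ 1}
      mul_mem' := fun {a b} ha hb v hv => by
        rw [map_mul]
        exact mul_le_one' (ha v hv) (hb v hv)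
      one_mem' := fun v _ => by rw [map_one]
      add_mem' := fun {a b} ha hb v hv => (v.valuation (RatFunc F)).map_add_le (ha v hv) (hb v hv)
      zero_mem' := fun v _ => by
        rw [map_zero]
        exact zero_le
      neg_mem' := fun {a} ha v hv => by
        rw [Valuation.map_neg]
        exact ha v hv }
  have hBmem : ∀ f, f ∈ B ↔ ∀ v ∉ P, v.valuation (RatFunc F) f ≤ 1 := fun f => Iff.rfl
  have hunit : ∀ f : RatFunc F, (∀ v ∉ P, v.valuation (RatFunc F) f = 1) → f ∈ B ∧ f⁻¹ ∈ B := by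
    intro f hf
    refine ⟨fun v hv => (hf v hv).le, fun v hv => ?_⟩
    rw [map_inv₀, hf v hv, inv_one]
  have hXval : ∀ v ∉ P, v.valuation (RatFunc F) (i X) = 1 := by
    intro v hv
    rw [hPmem] at hv
    push Not at hv
    have h1 := hv.1.1
    rw [map_inv₀] at h1
    have h2 : v.valuation (RatFunc F) (i X) ≤ 1 := v.valuation_le_one X
    exact le_antisymm h2 ((inv_le_one₀ (hpos v _ (hi0 _ Polynomial.X_ne_zero))).1 h1)
  have hX1val : ∀ v ∉ P, v.valuation (RatFunc F) (i (X + 1)) = 1 := by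
    intro v hv
    rw [hPmem] at hv
    push Not at hv
    have h1 := hv.1.2
    rw [map_inv₀] at h1
    have h2 : v.valuation (RatFunc F) (i (X + 1)) ≤ 1 := v.valuation_le_one (X + 1)
    exact le_antisymm h2 ((inv_le_one₀ (hpos v _ (hi0 _ hX1))).1 h1)
  have hπval : ∀ u ∉ P, ∀ v ∈ P, u.valuation (RatFunc F) (i (π v)) = 1 := by
    intro u hu v hv
    exact hπ2 v u (fun h => hu (h ▸ hv))
  have hUfin : ∀ v ∈ P, ∀ v' ∈ P, ∃ α : (RatFunc F)ˣ, (α : RatFunc F) ∈ B ∧
      ((α⁻¹ : (RatFunc F)ˣ) : RatFunc F) ∈ B ∧ 1 < v.valuation (RatFunc F) (α : RatFunc F) ∧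
      1 < v'.valuation (RatFunc F) (α : RatFunc F) := by
    intro v hv v' hv'
    have h0 : (i (π v) * i (π v'))⁻¹ ≠ 0 := inv_ne_zero (mul_ne_zero (hπi v) (hπi v'))
    have h1 := hunit ((i (π v) * i (π v'))⁻¹) (fun u hu => by
      rw [map_inv₀, map_mul, hπval u hu v hv, hπval u hu v' hv', mul_one, inv_one])
    refine ⟨Units.mk0 _ h0, h1.1, ?_, ?_, ?_⟩
    · rw [Units.val_inv_eq_inv_val]
      exact h1.2
    · show 1 < v.valuation (RatFunc F) ((i (π v) * i (π v'))⁻¹)
      rw [map_inv₀, one_lt_inv₀ (hpos v _ (mul_ne_zero (hπi v) (hπi v'))), map_mul]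
      exact lt_of_le_of_lt (mul_le_of_le_one_right' (v.valuation_le_one _)) (hπ1 v)
    · show 1 < v'.valuation (RatFunc F) ((i (π v) * i (π v'))⁻¹)
      rw [map_inv₀, one_lt_inv₀ (hpos v' _ (mul_ne_zero (hπi v) (hπi v'))), map_mul]
      exact lt_of_le_of_lt (mul_le_of_le_one_left' (v'.valuation_le_one _)) (hπ1 v')
  have hUinf : ∀ v ∈ P, ∃ α : (RatFunc F)ˣ, (α : RatFunc F) ∈ B ∧
      ((α⁻¹ : (RatFunc F)ˣ) : RatFunc F) ∈ B ∧ 1 < w (α : RatFunc F) ∧
      1 < v.valuation (RatFunc F) (α : RatFunc F) := by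
    intro v hv
    have hσ : ∃ σ : F[X], σ ≠ 0 ∧ σ.natDegree = 1 ∧ v.valuation (RatFunc F) (i σ) = 1 ∧
        ∀ u ∉ P, u.valuation (RatFunc F) (i σ) = 1 := by
      by_cases hXv : X ∈ v.asIdeal
      · refine ⟨X + 1, hX1, ?_, ?_, hX1val⟩
        · rw [← Polynomial.C_1]
          exact Polynomial.natDegree_X_add_C 1
        · rw [valuation_eq_one_iff_notMem]
          intro h
          apply v.isPrime.ne_top
          rw [Ideal.eq_top_iff_one]
          have : (1 : F[X]) = (X + 1) - X := by ring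
          rw [this]
          exact v.asIdeal.sub_mem h hXv
      · exact ⟨X, Polynomial.X_ne_zero, Polynomial.natDegree_X,
          (valuation_eq_one_iff_notMem v).2 hXv, hXval⟩
    obtain ⟨σ, hσ0, hσ1, hσ2, hσ3⟩ := hσ
    have hσi : i σ ≠ 0 := by simpa [hi] using hσ0
    set e := (π v).natDegree + 1 with he
    have h0 : i σ ^ e * (i (π v))⁻¹ ≠ 0 := mul_ne_zero (pow_ne_zero _ hσi) (inv_ne_zero (hπi v))
    have h1 := hunit (i σ ^ e * (i (π v))⁻¹) (fun u hu => by
      rw [map_mul, map_pow, map_inv₀, hσ3 u hu, hπval u hu v hv, one_pow, inv_one, mul_one])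
    refine ⟨Units.mk0 _ h0, h1.1, ?_, ?_, ?_⟩
    · rw [Units.val_inv_eq_inv_val]
      exact h1.2
    · show 1 < w (i σ ^ e * (i (π v))⁻¹)
      rw [map_mul, map_pow, map_inv₀]
      have h2 : w (i σ) = exp (1 : ℤ) := by
        rw [hw, RatFunc.inftyValuation_apply, RatFunc.inftyValuation.polynomial F hσ0, hσ1]
        rfl
      have h3 : w (i (π v)) = exp ((π v).natDegree : ℤ) := by
        rw [hw, RatFunc.inftyValuation_apply, RatFunc.inftyValuation.polynomial F (hπ0 v)]
      rw [h2, h3, ← exp_nsmul, ← exp_neg, ← exp_add, ← exp_zero, exp_lt_exp]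
      rw [he]
      simp
    · show 1 < v.valuation (RatFunc F) (i σ ^ e * (i (π v))⁻¹)
      rw [map_mul, map_pow, hσ2, one_pow, one_mul, map_inv₀, one_lt_inv₀ (hpos v _ (hπi v))]
      exact hπ1 v
  have hXX : ∃ α : (RatFunc F)ˣ, (α : RatFunc F) ∈ B ∧
      ((α⁻¹ : (RatFunc F)ˣ) : RatFunc F) ∈ B ∧ 1 < w (α : RatFunc F) := by
    have h0 : i X ≠ 0 := hi0 _ Polynomial.X_ne_zero
    have h1 := hunit (i X) hXval
    refine ⟨Units.mk0 _ h0, h1.1, ?_, ?_⟩
    · rw [Units.val_inv_eq_inv_val]
      exact h1.2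
    · show 1 < w (i X)
      rw [hw, RatFunc.inftyValuation_apply, RatFunc.inftyValuation.polynomial F
        Polynomial.X_ne_zero, Polynomial.natDegree_X, ← exp_zero, exp_lt_exp]
      norm_num
  refine ⟨{
    I := Option {v // v ∈ P}
    i0 := none
    av := fun j => match j with
      | none => avV w
      | some v => avV (v.1.valuation (RatFunc F))
    B := B
    hA := ?_
    hB := ?_
    hU := ?_ }, ?_, ?_, ?_, ?_⟩
  · intro x
    obtain ⟨γ, hγ1, hγ2⟩ := gf_fin F[X] (RatFunc F) P
      (fun v => if h : v ∈ P then x (some ⟨v, h⟩) else 0)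
    obtain ⟨q, hq⟩ := gf_inf F (x none - γ)
    refine ⟨γ + i q, ?_, ?_⟩
    · intro v hv
      exact (v.valuation (RatFunc F)).map_add_le (hγ2 v hv) (v.valuation_le_one q)
    · intro j
      match j with
      | none =>
        show avV w (x none - (γ + i q)) ≤ 1
        rw [avV_le_one, ← sub_sub]
        convert hq
      | some ⟨v, hv⟩ =>
        show avV (v.valuation (RatFunc F)) (x (some ⟨v, hv⟩) - (γ + i q)) ≤ 1
        rw [avV_le_one, ← sub_sub]
        have h1 := hγ1 v hv
        simp only [hv, dif_pos] at h1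
        exact (v.valuation (RatFunc F)).map_sub_le h1 (v.valuation_le_one q)
  · intro R
    refine (gf_bdd F P R).subset ?_
    rintro β ⟨h1, h2⟩
    have hR : (R : ℝ) ≤ 2 ^ R := by
      exact_mod_cast (Nat.lt_two_pow_self (n := R)).le
    refine ⟨h1, fun v hv => ?_, ?_⟩
    · exact avV_le_pow _ _ _ ((h2 (some ⟨v, hv⟩)).trans hR)
    · have := avV_le_pow _ _ _ ((h2 none).trans hR)
      convert this
  · intro j j'
    match j, j' with
    | none, none =>
      obtain ⟨α, h1, h2, h3⟩ := hXX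
      exact ⟨α, h1, h2, (one_lt_avV _ _).2 h3, (one_lt_avV _ _).2 h3⟩
    | none, some ⟨v, hv⟩ =>
      obtain ⟨α, h1, h2, h3, h4⟩ := hUinf v hv
      exact ⟨α, h1, h2, (one_lt_avV _ _).2 h3, (one_lt_avV _ _).2 h4⟩
    | some ⟨v, hv⟩, none =>
      obtain ⟨α, h1, h2, h3, h4⟩ := hUinf v hv
      exact ⟨α, h1, h2, (one_lt_avV _ _).2 h4, (one_lt_avV _ _).2 h3⟩
    | some ⟨v, hv⟩, some ⟨v', hv'⟩ =>
      obtain ⟨α, h1, h2, h3, h4⟩ := hUfin v hv v' hv'
      exact ⟨α, h1, h2, (one_lt_avV _ _).2 h3, (one_lt_avV _ _).2 h4⟩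
  · intro f hf v hv
    rw [hPmem] at hv
    push Not at hv
    exact hv.2 f hf
  · -- HV
    intro v0
    match v0 with
    | none =>
      have h1 := hunit (i (∏ v ∈ P, π v)) (fun u hu => by
        rw [map_prod, map_prod]
        exact Finset.prod_eq_one fun v hv => hπval u hu v hv)
      have h0 : (∏ v ∈ P, π v) ≠ 0 := Finset.prod_ne_zero_iff.2 fun v _ => hπ0 v
      have h0' : i (∏ v ∈ P, π v) ≠ 0 := hi0 _ h0
      refine ⟨Units.mk0 _ h0', h1.1, ?_, ?_, ?_⟩
      · rw [Units.val_inv_eq_inv_val]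
        exact h1.2
      · show 1 < avV w (i (∏ v ∈ P, π v))
        rw [one_lt_avV, hw, RatFunc.inftyValuation_apply, RatFunc.inftyValuation.polynomial F h0,
          ← exp_zero, exp_lt_exp, Polynomial.natDegree_prod _ _ fun v _ => hπ0 v]
        have h2 : 0 < ∑ v ∈ P, (π v).natDegree :=
          Finset.sum_pos (fun v _ => hπd v) hPne
        exact_mod_cast h2
      · intro v hv
        match v, hv with
        | none, hv => exact absurd rfl hv
        | some ⟨v, hv⟩, _ =>
          show avV (v.valuation (RatFunc F)) (i (∏ v ∈ P, π v)) < 1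
          rw [avV_lt_one, ← Finset.mul_prod_erase P _ hv, map_mul, map_mul]
          exact lt_of_le_of_lt (mul_le_of_le_one_right' (v.valuation_le_one _)) (hπ1 v)
    | some ⟨v, hv⟩ =>
      set Q : F[X] := ∏ u ∈ P.erase v, π u with hQ
      have hQ0 : Q ≠ 0 := Finset.prod_ne_zero_iff.2 fun u _ => hπ0 u
      set c : ℕ := Q.natDegree + 1 with hc
      have h0' : i Q * (i (π v) ^ c)⁻¹ ≠ 0 :=
        mul_ne_zero (hi0 _ hQ0) (inv_ne_zero (pow_ne_zero _ (hπi v)))
      have h1 := hunit (i Q * (i (π v) ^ c)⁻¹) (fun u hu => by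
        rw [map_mul, map_inv₀, map_pow, hπval u hu v hv, one_pow, inv_one, mul_one, hQ, map_prod,
          map_prod]
        exact Finset.prod_eq_one fun v' hv' => hπval u hu v' (Finset.mem_of_mem_erase hv'))
      refine ⟨Units.mk0 _ h0', h1.1, ?_, ?_, ?_⟩
      · rw [Units.val_inv_eq_inv_val]
        exact h1.2
      · show 1 < avV (v.valuation (RatFunc F)) (i Q * (i (π v) ^ c)⁻¹)
        rw [one_lt_avV, map_mul]
        have h2 : v.valuation (RatFunc F) (i Q) = 1 := by
          rw [hQ, map_prod, map_prod]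
          exact Finset.prod_eq_one fun u hu => hπ2 u v (Finset.ne_of_mem_erase hu).symm
        rw [h2, one_mul, map_inv₀, one_lt_inv₀ (hpos v _ (pow_ne_zero _ (hπi v))), map_pow]
        exact pow_lt_one₀ zero_le (hπ1 v) (by omega)
      · intro u hu
        match u, hu with
        | none, _ =>
          show avV w (i Q * (i (π v) ^ c)⁻¹) < 1
          rw [avV_lt_one, map_mul, map_inv₀, map_pow]
          have h2 : w (i Q) = exp (Q.natDegree : ℤ) := by
            rw [hw, RatFunc.inftyValuation_apply, RatFunc.inftyValuation.polynomial F hQ0]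
          have h3 : w (i (π v)) = exp ((π v).natDegree : ℤ) := by
            rw [hw, RatFunc.inftyValuation_apply, RatFunc.inftyValuation.polynomial F (hπ0 v)]
          rw [h2, h3, ← exp_nsmul, ← exp_neg, ← exp_add, ← exp_zero, exp_lt_exp]
          have h4 : (1 : ℤ) ≤ ((π v).natDegree : ℤ) := by exact_mod_cast hπd v
          rw [nsmul_eq_mul, hc]
          push_cast
          nlinarith [Int.natCast_nonneg (Q.natDegree)]
        | some ⟨u, hu'⟩, hne =>
          have huv : u ≠ v := by
            rintro rfl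
            exact hne rfl
          show avV (u.valuation (RatFunc F)) (i Q * (i (π v) ^ c)⁻¹) < 1
          rw [avV_lt_one, map_mul, map_inv₀, map_pow, hπ2 v u huv, one_pow, inv_one, mul_one, hQ,
            ← Finset.mul_prod_erase (P.erase v) _ (Finset.mem_erase.2 ⟨huv, hu'⟩), map_mul,
            map_mul]
          exact lt_of_le_of_lt (mul_le_of_le_one_right' (u.valuation_le_one _)) (hπ1 u)
  · -- HUN
    intro a ha ha0
    have hex : ∀ v : HeightOneSpectrum F[X], ∃ e : ℤ, v.valuation (RatFunc F) a = exp e := by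
      intro v
      have h1 : v.valuation (RatFunc F) a ≠ 0 := (Valuation.ne_zero_iff _).2 ha0
      exact ⟨log (v.valuation (RatFunc F) a), (exp_log h1).symm⟩
    choose e he using hex
    have hu0 : (∏ v ∈ P, i (π v) ^ e v) ≠ 0 :=
      Finset.prod_ne_zero_iff.2 fun v _ => zpow_ne_zero _ (hπi v)
    have h1 := hunit (∏ v ∈ P, i (π v) ^ e v) (fun u hu => by
      rw [map_prod]
      exact Finset.prod_eq_one fun v hv => by rw [map_zpow₀, hπval u hu v hv, one_zpow])
    have hv1 : ∀ v ∈ P, v.valuation (RatFunc F) (a * ∏ v ∈ P, i (π v) ^ e v) = 1 := by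
      intro v hv
      rw [map_mul, map_prod, ← Finset.mul_prod_erase P _ hv, map_zpow₀, hπe v, he v]
      have h2 : ∏ x ∈ P.erase v, v.valuation (RatFunc F) (i (π x) ^ e x) = 1 :=
        Finset.prod_eq_one fun u hu => by
          rw [map_zpow₀, hπ2 u v (Finset.ne_of_mem_erase hu).symm, one_zpow]
      rw [h2, mul_one, ← exp_zsmul, ← exp_add]
      simp
    refine ⟨Units.mk0 _ hu0, h1.1, ?_, ?_⟩
    · rw [Units.val_inv_eq_inv_val]
      exact h1.2
    · intro j
      match j with
      | some ⟨v, hv⟩ =>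
        show 1 ≤ avV (v.valuation (RatFunc F)) (a * ∏ v ∈ P, i (π v) ^ e v)
        rw [one_le_avV, hv1 v hv]
      | none =>
        show 1 ≤ avV w (a * ∏ v ∈ P, i (π v) ^ e v)
        rw [one_le_avV]
        have hint : (a * ∏ v ∈ P, i (π v) ^ e v) ∈ (algebraMap F[X] (RatFunc F)).range := by
          apply mem_integers_of_valuation_le_one (R := F[X]) (RatFunc F)
          intro v
          by_cases hv : v ∈ P
          · rw [hv1 v hv]
          · rw [map_mul]
            exact mul_le_one' (ha v hv) (h1.1 v hv)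
        obtain ⟨q, hq⟩ := hint
        have hq0 : q ≠ 0 := by
          rintro rfl
          rw [map_zero] at hq
          exact mul_ne_zero ha0 hu0 hq.symm
        rw [← hq, hw, RatFunc.inftyValuation_apply, RatFunc.inftyValuation.polynomial F hq0,
          ← exp_zero, exp_le_exp]
        exact Int.natCast_nonneg _
  · -- HBEZ
    intro a b
    by_cases hab : a ≠ 0 ∨ b ≠ 0
    · obtain ⟨p, q, r, s, h1, h2⟩ := bez_poly F a b hab
      exact ⟨i p, i q, i r, i s, fun v _ => v.valuation_le_one p, fun v _ => v.valuation_le_one q,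
        fun v _ => v.valuation_le_one r, fun v _ => v.valuation_le_one s, h1, h2⟩
    · push Not at hab
      refine ⟨1, 0, 0, 1, one_mem _, zero_mem _, zero_mem _, one_mem _, by ring, ?_⟩
      rw [hab.1, hab.2]
      ring


end QG
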